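import Mathlib
import Pool.Agent.TH813.One2

/-!
# Generalised logarithms with a field of transcendence degree one, for products of `𝔾ₘ` and
elliptic curves

`G = T₁ × … × T_q`, where every `T_i` is the multiplicative group (`none`) or an elliptic curve
`ℂ / L.lattice` (`some L`), possibly with complex multiplication and with isogenous or equal
factors, with invariants in a subfield `F` of `ℂ`; for `n` points of a group `G₁` take `G = G₁^n`.
The Lie algebra of `G` is `ℂ^q`. If `r` is in `Lie G` and has no coordinate in one of the lattices,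
then the field generated by the coordinates of `R = exp_G r` and the components of its generalised
logarithm (the integrals of the first and second kind on the elliptic curves and the logarithms on
the torus) is, up to algebraic numbers over `F`, generated by the numbers `r_i`, `e^(r_i)` for
the multiplicative groups and `r_i`, `℘(r_i)`, `ζ(r_i)` for the elliptic curves.

For a finite-dimensional `ℚ`-space `V` of vectors in `ℂ^q` the theorem describes all `r` in `V` for
which this field has transcendence degree at most one over `F`, and which are not degenerate: they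
lie in at most `binom(2 dim V, dim V)` rational subspaces of `V`, each of which as a whole has
transcendence degree one.
-/

set_option autoImplicit false

open Module
open scoped PeriodPair

namespace Pool.Agent.Results.MP_4b482e_nt.DegreeOne

/-- The Weierstrass zeta function `ζ(z) = ∑ (1/(z-l) + 1/l + z/l²)`, the sum over the lattice (the
summand of `l = 0` is `1/z`, since `1/0 = 0` in Lean). -/
noncomputable def ζ (L : PeriodPair) (z : ℂ) : ℂ :=
  ∑' l : L.lattice, (1 / (z - l) + 1 / l + z / l ^ 2)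

/-- the invariants of `T` are in `F` (`none`: the multiplicative group, `some L`: the elliptic curve
`ℂ / L.lattice`) -/
def Inv (F : IntermediateField ℚ ℂ) : Option PeriodPair → Prop
  | none => True
  | some L => L.g₂ ∈ F ∧ L.g₃ ∈ F

variable {q : ℕ} (T : Fin q → Option PeriodPair)

/-- the numbers `e^(r_i)` for the multiplicative groups -/
def ex (r : Fin q → ℂ) : Set ℂ := {x | ∃ i, T i = none ∧ x = Complex.exp (r i)}

/-- the numbers `℘(r_i)` for the elliptic curves, for the `r_i` outside the lattice -/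
def wp (r : Fin q → ℂ) : Set ℂ :=
  {x | ∃ i L, T i = some L ∧ r i ∉ L.lattice ∧ x = ℘[L] (r i)}

/-- the numbers `ζ(r_i)` for the elliptic curves, for the `r_i` outside the lattice -/
def ze (r : Fin q → ℂ) : Set ℂ :=
  {x | ∃ i L, T i = some L ∧ r i ∉ L.lattice ∧ x = ζ L (r i)}

/-- the coordinates of `R = exp_G r` and the components of its generalised logarithm `r` -/
def pts (r : Fin q → ℂ) : Set ℂ := Set.range r ∪ (ex T r ∪ (wp T r ∪ ze T r))

/-- the transcendence degree over `F` of the field generated by `S` over `F` -/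
noncomputable def trd (F : IntermediateField ℚ ℂ) (S : Set ℂ) : Cardinal :=
  Algebra.trdeg F (IntermediateField.adjoin F S)

/-- some number in `S` is transcendental over `F` -/
def Trans (F : IntermediateField ℚ ℂ) (S : Set ℂ) : Prop := ∃ x ∈ S, ¬ IsAlgebraic F x

section aux

open Pool.Agent.TH813 Pool.Agent.TH813.One Pool.Agent.TH813.Ell Pool.Agent.W245.EB
open Pool.Agent.TH813.Rel (DF trF MK)

variable {F : IntermediateField ℚ ℂ}

/-- the number of forms of the second kind -/
def ee : Option PeriodPair → ℕ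
  | none => 0
  | some _ => 1

/-- the group types -/
noncomputable def ty (T : Option PeriodPair) (h : Inv F T) : G.Ty F (ee T) :=
  match T, h with
  | none, _ => G.TM F
  | some L, h => G.TE (Classical.choose_spec (exists_eig L)) h.1 h.2

theorem good_ty (T : Option PeriodPair) (h : Inv F T) : Good (ty T h) := by
  cases T with
  | none => exact good_TM
  | some L => exact good_TE (Classical.choose_spec (exists_eig L)) h.1 h.2

/-- the numbers of one coordinate -/
def N1 : Option PeriodPair → ℂ → Set ℂ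
  | none, u => {u} ∪ {Complex.exp u}
  | some L, u => {u} ∪ ({x | u ∉ L.lattice ∧ x = ζ L u} ∪ {x | u ∉ L.lattice ∧ x = ℘[L] u})

/-- the coordinate is not in the lattice -/
def Out : Option PeriodPair → ℂ → Prop
  | none, _ => True
  | some L, u => u ∉ L.lattice

theorem zt_eq {L : PeriodPair} {z : ℂ} (hz : z ∉ L.lattice) : zt L z = ζ L z :=
  zt_of_notMem hz

theorem N1_sub (T : Option PeriodPair) (h : Inv F T) (z : ℂ) : N1 T z ⊆ (ty T h).N z := by
  cases T with
  | none => exact subset_rfl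
  | some L =>
    rintro x (hx | ⟨hz, rfl⟩ | ⟨hz, rfl⟩)
    · exact Or.inl hx
    · exact Or.inr (Or.inl (zt_eq hz).symm)
    · exact Or.inr (Or.inr ⟨z, ⟨rfl, hz⟩, rfl⟩)

theorem sub_N1 (T : Option PeriodPair) (h : Inv F T) {z : ℂ} (hz : Out T z) :
    (ty T h).N z ⊆ N1 T z := by
  cases T with
  | none => exact subset_rfl
  | some L =>
    rintro x (hx | hx | ⟨u, ⟨hu, hl⟩, rfl⟩)
    · exact Or.inl hx
    · exact Or.inr (Or.inl ⟨hz, (Set.mem_singleton_iff.1 hx).trans (zt_eq hz)⟩)
    · rw [Set.mem_singleton_iff] at hu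
      subst hu
      exact Or.inr (Or.inr ⟨hl, rfl⟩)

/-- the value of the point -/
def V1 : Option PeriodPair → ℂ → Set ℂ
  | none, u => {Complex.exp u}
  | some L, u => {x | u ∉ L.lattice ∧ x = ℘[L] u}

theorem W_ty (T : Option PeriodPair) (h : Inv F T) (z : ℂ) : (ty T h).W z = V1 T z := by
  cases T with
  | none => rfl
  | some L =>
    change G.Wp L z = V1 (some L) z
    ext w
    constructor
    · rintro ⟨u, ⟨hu, hl⟩, rfl⟩
      rw [Set.mem_singleton_iff] at hu
      subst hu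
      exact ⟨hl, rfl⟩
    · rintro ⟨hl, rfl⟩
      exact ⟨z, ⟨rfl, hl⟩, rfl⟩

theorem trd_mono {S S' : Set ℂ} (h : S ⊆ S') (h1 : trd F S' ≤ 1) : trd F S ≤ 1 := by
  obtain ⟨D₀, hD₀, h2⟩ := trF_le_one.1 h1
  refine trF_le_one.2 ⟨D₀, hD₀, fun D hD => ?_⟩
  obtain ⟨ρ, hρ⟩ := h2 D hD
  exact ⟨ρ, fun x hx => hρ x (h hx)⟩

theorem trans_iff {S : Set ℂ} : Trans F S ↔ ∃ x ∈ S, ∃ D ∈ DF F, D x ≠ 0 := by
  constructor
  · rintro ⟨x, hx, h⟩
    refine ⟨x, hx, ?_⟩
    by_contra hcon
    push Not at hcon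
    exact h (ZtFin.alg_of_killed hcon)
  · rintro ⟨x, hx, D, hD, h⟩
    exact ⟨x, hx, fun ha => h (ZtFin.killed_of_alg ha D hD)⟩

variable {T}

theorem mem_pts {r : Fin q → ℂ} {x : ℂ} : x ∈ pts T r ↔ ∃ i, x ∈ N1 (T i) (r i) := by
  constructor
  · rintro (⟨i, rfl⟩ | ⟨i, hi, rfl⟩ | ⟨i, L, hi, hl, rfl⟩ | ⟨i, L, hi, hl, rfl⟩)
    · refine ⟨i, ?_⟩
      rcases T i with _ | L
      · exact Or.inl rfl
      · exact Or.inl rfl
    · exact ⟨i, by rw [hi]; exact Or.inr rfl⟩
    · exact ⟨i, by rw [hi]; exact Or.inr (Or.inr ⟨hl, rfl⟩)⟩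
    · exact ⟨i, by rw [hi]; exact Or.inr (Or.inl ⟨hl, rfl⟩)⟩
  · rintro ⟨i, hx⟩
    rcases hT : T i with _ | L
    · rw [hT] at hx
      rcases hx with hx | hx
      · exact Or.inl ⟨i, hx.symm⟩
      · exact Or.inr (Or.inl ⟨i, hT, hx⟩)
    · rw [hT] at hx
      rcases hx with hx | ⟨hl, hx⟩ | ⟨hl, hx⟩
      · exact Or.inl ⟨i, hx.symm⟩
      · exact Or.inr (Or.inr (Or.inr ⟨i, L, hT, hl, hx⟩))
      · exact Or.inr (Or.inr (Or.inl ⟨i, L, hT, hl, hx⟩))

theorem mem_val {r : Fin q → ℂ} {x : ℂ} : x ∈ ex T r ∪ wp T r ↔ ∃ i, x ∈ V1 (T i) (r i) := by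
  constructor
  · rintro (⟨i, hi, rfl⟩ | ⟨i, L, hi, hl, rfl⟩)
    · exact ⟨i, by rw [hi]; exact rfl⟩
    · exact ⟨i, by rw [hi]; exact ⟨hl, rfl⟩⟩
  · rintro ⟨i, hx⟩
    rcases hT : T i with _ | L
    · rw [hT] at hx
      exact Or.inl ⟨i, hT, hx⟩
    · rw [hT] at hx
      exact Or.inr ⟨i, L, hT, hx.1, hx.2⟩

theorem sub_num (hT : ∀ i, Inv F (T i)) (r : Fin q → ℂ) :
    pts T r ⊆ num (fun i => ty (T i) (hT i)) r := by
  intro x hx
  obtain ⟨i, hi⟩ := mem_pts.1 hx
  exact Set.mem_iUnion.2 ⟨i, N1_sub _ _ _ hi⟩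

theorem num_sub (hT : ∀ i, Inv F (T i)) {r : Fin q → ℂ} (hr : ∀ i, Out (T i) (r i)) :
    num (fun i => ty (T i) (hT i)) r ⊆ pts T r := by
  intro x hx
  obtain ⟨i, hi⟩ := Set.mem_iUnion.1 hx
  exact mem_pts.2 ⟨i, sub_N1 _ _ (hr i) hi⟩

theorem val_iff (hT : ∀ i, Inv F (T i)) (r : Fin q → ℂ) : Trans F (ex T r ∪ wp T r) ↔
    ∃ i, ∃ D ∈ DF F, (ty (T i) (hT i)).lam 0 D (r i) ≠ 0 := by
  rw [trans_iff]
  constructor
  · rintro ⟨x, hx, D, hD, hne⟩
    obtain ⟨i, hi⟩ := mem_val.1 hx
    refine ⟨i, D, hD, fun h0 => hne ?_⟩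
    refine ((ty (T i) (hT i)).W_iff D hD (r i)).2 h0 x ?_
    rw [W_ty]
    exact hi
  · rintro ⟨i, D, hD, hne⟩
    by_contra hcon
    push Not at hcon
    apply hne
    refine ((ty (T i) (hT i)).W_iff D hD (r i)).1 (fun x hx => ?_)
    rw [W_ty] at hx
    exact hcon x (mem_val.2 ⟨i, hx⟩) D hD

theorem two_of (hT : ∀ i, Inv F (T i)) {r : Fin q → ℂ}
    (h : Trans F (Set.range r ∪ (wp T r ∪ ze T r))) : Two (fun i => ty (T i) (hT i)) r := by
  obtain ⟨x, hx, D, hD, hne⟩ := trans_iff.1 h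
  by_contra hcon
  unfold Two at hcon
  push Not at hcon
  obtain ⟨h4, h5⟩ := hcon
  have hN : ∀ i L, T i = some L → ∀ x ∈ N1 (T i) (r i), D x = 0 := by
    intro i L hL x hx
    have h6 : ∀ (T₀ : Option PeriodPair) (h₀ : Inv F T₀), T₀ = some L →
        (∀ j : Fin (ee T₀ + 1), j ≠ 0 → (ty T₀ h₀).lam 0 D (r i) = 0 ∧
          (ty T₀ h₀).lam j D (r i) = 0) → ∀ x ∈ (ty T₀ h₀).N (r i), D x = 0 := by
      intro T₀ h₀ e₀ hj
      subst e₀
      refine ((ty (some L) h₀).N_iff D hD _).2 ⟨h4 _ D hD, fun j => ?_⟩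
      have h01 : (1 : Fin 2) ≠ 0 := by decide
      have h7 := hj (1 : Fin 2) h01
      change Fin 2 at j
      fin_cases j
      · exact h7.1
      · exact h7.2
    exact h6 (T i) (hT i) hL (fun j hj => h5 i j hj D hD) x (N1_sub _ _ _ hx)
  apply hne
  rcases hx with ⟨c, rfl⟩ | ⟨i, L, hi, hl, rfl⟩ | ⟨i, L, hi, hl, rfl⟩
  · exact h4 c D hD
  · refine hN i L hi _ ?_
    rw [hi]
    exact Or.inr (Or.inr ⟨hl, rfl⟩)
  · refine hN i L hi _ ?_
    rw [hi]
    exact Or.inr (Or.inl ⟨hl, rfl⟩)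

end aux

open Pool.Agent.TH813.One in
/-- **Main result.** Let `F` be a subfield of `ℂ`, `G = T₁ × … × T_q`, every `T_i` the multiplicative
group or an elliptic curve with invariants in `F`, and let `V` be a finite-dimensional `ℚ`-space
of vectors in `Lie G = ℂ^q`. There is a finite set of at most `binom(2 dim V, dim V)` subspaces `W`
of `V` such that

* every `W` has `tr.deg_F F(pts r : r ∈ W) = 1` and contains some `r` for which some component of
`exp_G r` is transcendental over `F`;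
* if `r` is in two different `W` then all numbers in `pts r` are algebraic over `F`;
* for every `r` in `V` with no coordinate in the lattices, such that some component of `exp_G r` is
transcendental over `F` and also some `r_i` or some `℘(r_i)`, `ζ(r_i)` is transcendental over `F`,
`tr.deg_F F(pts r) ≤ 1` if and only if `r` is in one of the `W`. -/
theorem result (F : IntermediateField ℚ ℂ) (hT : ∀ i, Inv F (T i))
    (V : Submodule ℚ (Fin q → ℂ)) (hfd : FiniteDimensional ℚ V) :
    ∃ G : Finset (Submodule ℚ (Fin q → ℂ)),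
      G.card ≤ (2 * finrank ℚ V).choose (finrank ℚ V) ∧
      (∀ W ∈ G, W ≤ V ∧ trd F (⋃ r ∈ W, pts T r) = 1 ∧
        ∃ r ∈ W, Trans F (ex T r ∪ wp T r)) ∧
      (∀ W ∈ G, ∀ W' ∈ G, W ≠ W' → ∀ r ∈ W ⊓ W', ∀ x ∈ pts T r, IsAlgebraic F x) ∧
      ∀ r ∈ V, (∀ i L, T i = some L → r i ∉ L.lattice) → Trans F (ex T r ∪ wp T r) →
        Trans F (Set.range r ∪ (wp T r ∪ ze T r)) →
          (trd F (pts T r) ≤ 1 ↔ ∃ W ∈ G, r ∈ W) := by
  obtain ⟨G, h1, h4, h5, h6⟩ := main_tr (T := fun i => ty (T i) (hT i))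
    (fun i => good_ty (T i) (hT i)) V
  have hle : ∀ W ∈ G, trd F (⋃ r ∈ W, pts T r) ≤ 1 := fun W hW =>
    trd_mono (Set.iUnion₂_mono fun r _ => sub_num hT r) (le_of_eq (h4 W hW).2.2)
  refine ⟨G, h1, fun W hW => ?_, fun W hW W' hW' hne r hr x hx => ?_, fun r hr hl ha hb => ?_⟩
  · obtain ⟨hWV, ⟨y, hyW, hy⟩, ht⟩ := h4 W hW
    have hv := (val_iff hT y).2 hy.2.1
    refine ⟨hWV, le_antisymm (hle W hW) ?_, y, hyW, hv⟩
    obtain ⟨x, hx, hD⟩ := trans_iff.1 hv
    refine one_le_trF ⟨x, Set.mem_iUnion₂.2 ⟨y, hyW, ?_⟩, hD⟩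
    rcases hx with hx | hx
    · exact Or.inr (Or.inl hx)
    · exact Or.inr (Or.inr (Or.inl hx))
  · exact h5 W hW W' hW' hne r hr.1 hr.2 x (sub_num hT r hx)
  · constructor
    · intro h
      have hout : ∀ i, Out (T i) (r i) := by
        intro i
        have h7 : ∀ T₀ : Option PeriodPair, (∀ L, T₀ = some L → r i ∉ L.lattice) →
            Out T₀ (r i) := by
          rintro (_ | L) h8
          · trivial
          · exact h8 L rfl
        exact h7 (T i) (hl i)
      exact h6 r hr (trd_mono (num_sub hT hout) h) ((val_iff hT r).1 ha) (two_of hT hb)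
    · rintro ⟨W, hW, hrW⟩
      exact trd_mono (Set.subset_iUnion₂_of_subset r hrW subset_rfl) (hle W hW)

end Pool.Agent.Results.MP_4b482e_nt.DegreeOne
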