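import Pool.Agent.TH21.MS.SchanMain

/-!
# Logarithms, powers and iterated exponentials at almost all rational numbers

For the torus `G = G_m^s` the problem asks whether, for nonzero complex numbers `τ_1, …, τ_s`, the field generated over
`Q̄ (2πi)` by the `τ_i` and the `log τ_i` has transcendence degree at least the dimension `t` of the `ℚ`-space spanned by
the `log τ_i` modulo `2πi ℚ`. Let `x_1, …, x_n` be multiplicatively independent positive rational numbers and
`r_1, …, r_m` real algebraic numbers such that `1, r_1, …, r_m` are linearly independent over `ℚ`, and take for the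
`τ_i` the numbers `x_j`, `x_j ^ r_k` and `exp (x_j ^ r_k)`, `exp (exp (x_j ^ r_k))`, …, up to `L` exponentials. Their
logarithms are `log x_j`, `r_k log x_j`, `x_j ^ r_k`, `exp (x_j ^ r_k)`, …, and the statement is that the
`n (m (L + 1) + 1)` numbers `log x_j`, `x_j ^ r_k`, `exp (x_j ^ r_k)`, … are algebraically independent over `Q̄ (π)`
(if the logarithms are linearly independent, as one expects).

We prove for almost all `n`-tuples of rational numbers that these numbers and `π` satisfy no polynomial relation, even
approximately, of bounded degree and with integer coefficients bounded by any fixed power of the bound `T` of the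
denominators. The exponents `r_k` can be arbitrary positive real numbers which are together with `1` linearly independent
over `ℚ`.

Proof: the determinant method of helper818 (`Pool.Agent.TH818.AP`); the independence of the functions follows from their
growth after the substitution `t = exp s` (`Pool.Agent.TH21.MS.Schan`).
-/

set_option autoImplicit false

open Set Filter

namespace Pool.Agent.Results.MP_4b482e_nt.LogsPowersExponentials

/-- The `n (m (L + 1) + 1) + 1` numbers `π`, `log x_j` and `E_l (x_j ^ r_k)`, `0 ≤ l ≤ L`, where `E_0 (y) = y`,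
`E_1 (y) = exp y`, `E_2 (y) = exp (exp y)`, …. -/
noncomputable def numbers {m n : ℕ} (r : Fin m → ℝ) (L : ℕ) (x : Fin n → ℚ) :
    Option (Fin n × Option (Fin m × Fin (L + 1))) → ℝ
  | none => Real.pi
  | some (j, none) => Real.log (x j)
  | some (j, some (k, l)) => Real.exp^[l] ((x j : ℝ) ^ r k)

/-- The `n`-tuples `x` of rational numbers in `[a, b]` with denominators at most `T` for which some nonzero
polynomial with integer coefficients of absolute value at most `T ^ A`, of degree at most `d` in each variable, takes at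
the `n (m (L + 1) + 1) + 1` numbers a value of absolute value at most `T ^ (-B)`. -/
def Exceptional {m : ℕ} (n d : ℕ) (r : Fin m → ℝ) (L : ℕ) (a b A B T : ℝ) : Set (Fin n → ℚ) :=
  {x | (∀ j, (x j : ℝ) ∈ Icc a b ∧ ((x j).den : ℝ) ≤ T) ∧
    ∃ P : MvPolynomial (Option (Fin n × Option (Fin m × Fin (L + 1)))) ℤ, P ≠ 0 ∧ (∀ i, P.degreeOf i ≤ d) ∧
      (∀ e, |((P.coeff e : ℤ) : ℝ)| ≤ T ^ A) ∧ |MvPolynomial.aeval (numbers r L x) P| ≤ T ^ (-B)}

/-- Let `[a, b] ⊂ (0, ∞)`, `n ≥ 1`, `L`, `d`, `A ≥ 0`, let `r_1, …, r_m` be positive and together with `1` linearly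
independent over `ℚ`, and let `β > 2 - 2 / ((d + 1)^((m (L + 1) + 1) n + 1) + 1)`. There are `B` and `C` such that for all
`T ≥ 1` the number of exceptional `n`-tuples is at most `C T^(2(n - 1) + β)`. -/
theorem result (m n L d : ℕ) (hn : 1 ≤ n) (r : Fin m → ℝ) (hr : ∀ k, 0 < r k)
    (hind : ∀ (c0 : ℤ) (c : Fin m → ℤ), (c0 : ℝ) + ∑ k, (c k : ℝ) * r k = 0 → c0 = 0 ∧ c = 0)
    (A a b β : ℝ) (hA : 0 ≤ A) (ha : 0 < a) (hab : a < b)
    (hβ : 2 - 2 / (((d : ℝ) + 1) ^ ((m * (L + 1) + 1) * n + 1) + 1) < β) :
    ∃ B C : ℝ, ∀ T : ℝ, 1 ≤ T → (Exceptional n d r L a b A B T).Finite ∧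
      ((Exceptional n d r L a b A B T).ncard : ℝ) ≤ C * T ^ (2 * ((n : ℝ) - 1) + β) := by
  obtain ⟨B, C, h⟩ := Pool.Agent.TH21.MS.schanmain r hr hind L n d hn A a b hA ha hab β hβ
  refine ⟨B, C, fun T hT => ?_⟩
  have hset : Exceptional n d r L a b A B T = Pool.Agent.TH21.MS.ExcS n d r L a b A B T := by
    have heq : ∀ x : Fin n → ℚ, numbers r L x = Pool.Agent.TH21.MS.numS r L x := by
      intro x
      funext i
      rcases i with _ | ⟨j, _ | ⟨k, l⟩⟩
      · rfl
      · rfl
      · rfl
    ext x
    simp only [Exceptional, Pool.Agent.TH21.MS.ExcS, Set.mem_ofPred_eq, heq]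
  rw [hset]
  exact h T hT

end Pool.Agent.Results.MP_4b482e_nt.LogsPowersExponentials
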