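import Pool.Agent.TH21.MS.PolyLog

/-!
# Exponentials of polynomials in logarithms of rational numbers

For the torus `G = G_m^s` the problem asks whether, for nonzero complex numbers `τ_1, …, τ_s`, the field generated over
`Q̄ (2πi)` by the `τ_i` and the `log τ_i` has transcendence degree at least the dimension `t` of the `ℚ`-space spanned by
the `log τ_i` modulo `2πi ℚ`. Let `x_1, …, x_n` be positive rational numbers and `Q_1, …, Q_M` polynomials in one variable
`s` with real algebraic coefficients such that no nontrivial integer combination of `s, Q_1, …, Q_M` is constant, and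
take for the `τ_i` the numbers `x_j` and `exp (Q_k (log x_j))`; for instance `x ^ (log x)`, `x ^ ((log x) ^ 2)`,
`x ^ (√2 log x)`, …. Then the `n (M + 1)` numbers `log x_j` and `exp (Q_k (log x_j))` should be algebraically independent
over `Q̄ (π)` if the logarithms `log x_j`, `Q_k (log x_j)` are linearly independent over `ℚ`.

We prove for almost all `n`-tuples of rational numbers that these numbers and `π` satisfy no polynomial relation, even
approximately, of bounded degree and with integer coefficients bounded by any fixed power of the bound `T` of the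
denominators. The coefficients of the polynomials can be arbitrary real numbers.

Proof: the determinant method of helper818 (`Pool.Agent.TH818.AP`); the independence of the functions follows from their
growth after the substitution `t = exp s` (`Pool.Agent.TH21.MS.PolyLog`).
-/

set_option autoImplicit false

open Set Filter

namespace Pool.Agent.Results.MP_4b482e_nt.PolynomialsInLogs

/-- The `n (M + 1) + 1` numbers `π`, `log x_j` and `exp (Q_k (log x_j))`. -/
noncomputable def numbers {M n : ℕ} (Q : Fin M → Polynomial ℝ) (x : Fin n → ℚ) : Option (Fin n × Option (Fin M)) → ℝ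
  | none => Real.pi
  | some (j, none) => Real.log (x j)
  | some (j, some k) => Real.exp ((Q k).eval (Real.log (x j)))

/-- The `n`-tuples `x` of rational numbers in `[a, b]` with denominators at most `T` for which some nonzero
polynomial with integer coefficients of absolute value at most `T ^ A`, of degree at most `d` in each variable, takes at
the `n (M + 1) + 1` numbers a value of absolute value at most `T ^ (-B)`. -/
def Exceptional {M : ℕ} (n d : ℕ) (Q : Fin M → Polynomial ℝ) (a b A B T : ℝ) : Set (Fin n → ℚ) :=
  {x | (∀ j, (x j : ℝ) ∈ Icc a b ∧ ((x j).den : ℝ) ≤ T) ∧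
    ∃ P : MvPolynomial (Option (Fin n × Option (Fin M))) ℤ, P ≠ 0 ∧ (∀ i, P.degreeOf i ≤ d) ∧
      (∀ e, |((P.coeff e : ℤ) : ℝ)| ≤ T ^ A) ∧ |MvPolynomial.aeval (numbers Q x) P| ≤ T ^ (-B)}

/-- Let `[a, b] ⊂ (0, ∞)`, `n ≥ 1`, `d`, `A ≥ 0`, let `Q_1, …, Q_M` be real polynomials in `s` such that `c_0 s + ∑ c_k Q_k`
is not constant for integers `c_0, …, c_M` not all zero, and let `β > 2 - 2 / ((d + 1)^((M + 1) n + 1) + 1)`. There are `B`
and `C` such that for all `T ≥ 1` the number of exceptional `n`-tuples is at most `C T^(2(n - 1) + β)`. -/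
theorem result (M n d : ℕ) (hn : 1 ≤ n) (Q : Fin M → Polynomial ℝ)
    (hQ : ∀ (c0 : ℤ) (c : Fin M → ℤ),
      (Polynomial.C (c0 : ℝ) * Polynomial.X + ∑ k, Polynomial.C (c k : ℝ) * Q k).natDegree = 0 → c0 = 0 ∧ c = 0)
    (A a b β : ℝ) (hA : 0 ≤ A) (ha : 0 < a) (hab : a < b)
    (hβ : 2 - 2 / (((d : ℝ) + 1) ^ ((M + 1) * n + 1) + 1) < β) :
    ∃ B C : ℝ, ∀ T : ℝ, 1 ≤ T → (Exceptional n d Q a b A B T).Finite ∧
      ((Exceptional n d Q a b A B T).ncard : ℝ) ≤ C * T ^ (2 * ((n : ℝ) - 1) + β) := by
  obtain ⟨B, C, h⟩ := Pool.Agent.TH21.MS.polylogmain Q hQ n d hn A a b hA ha hab β hβ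
  refine ⟨B, C, fun T hT => ?_⟩
  have hset : Exceptional n d Q a b A B T = Pool.Agent.TH21.MS.ExcP n d Q a b A B T := by
    have heq : ∀ x : Fin n → ℚ, numbers Q x = Pool.Agent.TH21.MS.numP Q x := by
      intro x
      funext i
      rcases i with _ | ⟨j, _ | k⟩
      · rfl
      · rfl
      · rfl
    ext x
    simp only [Exceptional, Pool.Agent.TH21.MS.ExcP, Set.mem_ofPred_eq, heq]
  rw [hset]
  exact h T hT

end Pool.Agent.Results.MP_4b482e_nt.PolynomialsInLogs
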