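import Mathlib
import Pool.Agent.TH813.GRelC

/-!
# The relative conjecture for products of `𝔾ₘ` and elliptic curves: all failures

`Λ c`, `c = 1, …, q`, are pairs of periods `ω₁, ω₂` (independent over `ℝ`), with the lattices
`Ω_c = (Λ c).lattice = ℤ ω₁ + ℤ ω₂` and the elliptic curves `E_c = ℂ / Ω_c`, which are supposed to
be pairwise non-isogenous; `℘[L]`, `L.g₂`, `L.g₃` are Mathlib's Weierstrass function and invariants
of `L = Λ c`.

For `G = 𝔾ₘ^s × ∏ E_c^(g_c)` (so `Q = 0`), `g₂, g₃` algebraic, and points `R₁, …, Rₙ` of `G` the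
numbers `log~(R_l)` are `s n` numbers `t` with exponentials the toric coordinates, for every `c`
`g_c n` numbers `p_c` with `(℘(p_c), ℘'(p_c))` the coordinates in `E_c`, and the numbers `ζ(p_c)`.
The conjecture of the problem is
`trdeg F(t, e^t, p_c, ℘(p_c), ζ(p_c)) ≥ dim ⟨t⟩ + 2 ∑ dim ⟨p_c⟩`, where
`F = ℚ̄(ω₁, ω₂, η₁, η₂ of all E_c, 2πi)`, where `⟨t⟩` is the `ℚ`-span modulo `A₀ = 2πi ℚ`, and
`⟨p_c⟩` the span modulo `A_c = Ω_c ⊗ ℚ` over `k_c = ℚ ⊗ End(E_c)`.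

The theorem describes all failures of this inequality and their defects, for every field `F`
which contains the invariants and all spaces `A₀`, `A_c`.
-/

set_option autoImplicit false

open Module
open scoped PeriodPair

namespace Pool.Agent.Results.MP_4b482e_nt.UniformFailures

/-- The Weierstrass zeta function `ζ(z) = ∑ (1/(z-l) + 1/l + z/l²)`, the sum over the lattice (the
summand of `l = 0` is `1/z`, since `1/0 = 0` in Lean). -/
noncomputable def ζ (L : PeriodPair) (z : ℂ) : ℂ :=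
  ∑' l : L.lattice, (1 / (z - l) + 1 / l + z / l ^ 2)

/-- the field `k = ℚ ⊗ End(ℂ / Ω)` as a subfield of `ℂ`; see `mem_k` -/
noncomputable abbrev k (L : PeriodPair) : IntermediateField ℚ ℂ := Pool.Agent.TH813.Ell.kL L

/-- `k` consists of the numbers `c` such that `n c` maps the lattice to itself for some `n > 0` -/
theorem mem_k {L : PeriodPair} {c : ℂ} :
    c ∈ k L ↔ ∃ n : ℕ, 0 < n ∧ ∀ w ∈ L.lattice, (n * c) * w ∈ L.lattice := Iff.rfl

/-- the transcendence degree over `F` of the field generated by `S` over `F` -/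
noncomputable def trd (F : IntermediateField ℚ ℂ) (S : Set ℂ) : Cardinal :=
  Algebra.trdeg F (IntermediateField.adjoin F S)

/-- the dimension of a space -/
noncomputable def dim {K : Type} [Field K] [Module K ℂ] (X : Submodule K ℂ) : ℕ := finrank K X

/-- the dimension of the span of the classes of `z₁, …, zₙ` modulo `A` -/
noncomputable def dimMod {K : Type} [Field K] [Module K ℂ] (A : Submodule K ℂ) {n : ℕ}
    (z : Fin n → ℂ) : ℕ := finrank K (Submodule.span K (Set.range (fun i => A.mkQ (z i))))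

variable {q : ℕ}

/-- The curves `ℂ / Ω_c` are pairwise non-isogenous: there is no nonzero homomorphism from one to
another. -/
def NonIsog (Λ : Fin q → PeriodPair) : Prop :=
  ∀ c c', c ≠ c' → ∀ α : ℂ, (∀ w ∈ (Λ c).lattice, α * w ∈ (Λ c').lattice) → α = 0

/-- the numbers `t`, `e^t`, and `p`, `℘(p)`, `ζ(p)` for the points `p` of all curves -/
noncomputable def pts (Λ : Fin q → PeriodPair) {s : ℕ} {n : Fin q → ℕ} (t : Fin s → ℂ)
    (p : ∀ c, Fin (n c) → ℂ) : Set ℂ :=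
  (Set.range t ∪ Complex.exp '' Set.range t) ∪
    ⋃ c, (Set.range (p c) ∪ (℘[Λ c] '' Set.range (p c) ∪ ζ (Λ c) '' Set.range (p c)))

/-- families of a `ℚ`-space and a `k_c`-space of complex numbers for every `c`; `≤`, `⊓` and `⊥`
are componentwise -/
abbrev Fam (Λ : Fin q → PeriodPair) : Type :=
  Submodule ℚ ℂ × (∀ c, Submodule (k (Λ c)) ℂ)

/-- The inequality fails by at least `m` at `(t, p)`, over the field `F` and modulo `A`; the
numbers `p_{c,i}` are outside the lattices. -/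
def Fails (Λ : Fin q → PeriodPair) (F : IntermediateField ℚ ℂ) (A : Fam Λ) (m : ℕ) {s : ℕ}
    {n : Fin q → ℕ} (t : Fin s → ℂ) (p : ∀ c, Fin (n c) → ℂ) : Prop :=
  (∀ c i, p c i ∉ (Λ c).lattice) ∧ trd F (pts Λ t p) + m ≤
    ((dimMod A.1 t + 2 * ∑ c, dimMod (A.2 c) (p c) : ℕ) : Cardinal)

/-- the dimension is finite and at most `r` -/
def Sm {K : Type} [Field K] [Module K ℂ] (r : ℕ) (X : Submodule K ℂ) : Prop :=
  FiniteDimensional K X ∧ finrank K X ≤ r

/-- all spaces have dimension at most `r` -/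
def Small (Λ : Fin q → PeriodPair) (r : ℕ) (V : Fam Λ) : Prop :=
  Sm r V.1 ∧ ∀ c, Sm r (V.2 c)

/-- the tuples `t`, `p` are in the family `U` -/
def In {Λ : Fin q → PeriodPair} (U : Fam Λ) {s : ℕ} {n : Fin q → ℕ} (t : Fin s → ℂ)
    (p : ∀ c, Fin (n c) → ℂ) : Prop := (∀ i, t i ∈ U.1) ∧ ∀ c i, p c i ∈ U.2 c

/-- all `x` in `X₀` and `e^w` with `w` in `W₀`, and for every `c` all `x` and `ζ(x)` with `x` in
`X_c` and all `℘(w)` with `w` in `W_c` (`ζ` and `℘` are only taken outside the lattice) -/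
noncomputable def num (Λ : Fin q → PeriodPair) (X W : Fam Λ) : Set ℂ :=
  ((X.1 : Set ℂ) ∪ Complex.exp '' (W.1 : Set ℂ)) ∪
    ⋃ c, ((X.2 c : Set ℂ) ∪ (ζ (Λ c) '' ((X.2 c : Set ℂ) \ ((Λ c).lattice : Set ℂ)) ∪
      ℘[Λ c] '' ((W.2 c : Set ℂ) \ ((Λ c).lattice : Set ℂ))))

/-- some family `X` inside `Y` with `X ∩ A = 0` has
`trdeg_F F(num (X, W)) + m ≤ dim X₀ + 2 ∑ dim X_c` -/
def Bad (Λ : Fin q → PeriodPair) (F : IntermediateField ℚ ℂ) (A : Fam Λ) (m : ℕ)
    (Y W : Fam Λ) : Prop :=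
  ∃ X ≤ Y, X ⊓ A = ⊥ ∧
    trd F (num Λ X W) + m ≤ ((dim X.1 + 2 * ∑ c, dim (X.2 c) : ℕ) : Cardinal)

/-- the invariants `g₂`, `g₃` of all curves are in `F` -/
def Inv (Λ : Fin q → PeriodPair) (F : IntermediateField ℚ ℂ) : Prop :=
  ∀ c, (Λ c).g₂ ∈ F ∧ (Λ c).g₃ ∈ F

open Pool.Agent.TH813.G in
/-- **Main result.** -/
theorem result (q r : ℕ) : ∃ N : ℕ, ∀ Λ : Fin q → PeriodPair, NonIsog Λ →
    ∀ F : IntermediateField ℚ ℂ, Inv Λ F → ∀ A V : Fam Λ, Small Λ r V →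
    ∃ T : Finset (Fam Λ), T.card ≤ N ∧
      (∀ W ∈ T, W ≤ V ∧ Bad Λ F A 1 W W) ∧
      ∀ U ≤ V, ∀ m : ℕ, 0 < m →
        ((∃ (s : ℕ) (n : Fin q → ℕ) (t : Fin s → ℂ) (p : ∀ c, Fin (n c) → ℂ),
            Fails Λ F A m t p ∧ In U t p) ↔
          ∃ W ∈ T, Bad Λ F A m (U ⊓ W) W) := by
  obtain ⟨N, hN⟩ := mainC q r
  refine ⟨N, fun Λ hni F hF A V ⟨⟨hf1, hr1⟩, hf⟩ => ?_⟩
  have hV : FdL V := ⟨hf1, fun c => (hf c).1⟩
  obtain ⟨T, hT1, hT2, hT3⟩ := hN Λ hni F (fun c => (hF c).1) (fun c => (hF c).2) A V hV hr1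
    (fun c => (hf c).2)
  refine ⟨T, hT1, fun W hW => hT2 W hW, fun U hUV m hm => ?_⟩
  have key := (tup_iff (fun c => (hF c).1) (fun c => (hF c).2) (A := A) (hV.mono hUV) m).trans
    (hT3 U hUV m hm)
  constructor
  · rintro ⟨s, n, t, p, ⟨hp, hle⟩, ht, hpU⟩
    exact key.1 ⟨s, n, t, p, hp, hle, ht, hpU⟩
  · intro h
    obtain ⟨s, n, t, p, hp, hle, ht, hpU⟩ := key.2 h
    exact ⟨s, n, t, p, ⟨hp, hle⟩, ht, hpU⟩

end Pool.Agent.Results.MP_4b482e_nt.UniformFailures
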